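import Pool.Agent.K1H12.SW.Stm

set_option autoImplicit false

namespace Pool.Agent.K1H99.HE

open Pool.Agent.K1H12.SW

section

variable {G : Type} [Group G] {V : Type} [AddCommGroup V] (ρ : Representation ℤ G V)

/-- the action of the group on the image of the representation -/
@[reducible] def actR : MulAction G (Set.range ρ) where
  smul g q := ⟨ρ g * q.1, by
    obtain ⟨h, hh⟩ := q.2
    exact ⟨g * h, by rw [map_mul, hh]⟩⟩
  one_smul q := Subtype.ext (by
    change ρ 1 * q.1 = q.1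
    rw [map_one, one_mul])
  mul_smul g h q := Subtype.ext (by
    change ρ (g * h) * q.1 = ρ g * (ρ h * q.1)
    rw [map_mul, mul_assoc])

/-- the covering by a lattice -/
noncomputable def cov [Fintype (Set.range ρ)] {k : ℕ} (s : (Fin k → ℤ) →ₗ[ℤ] V) :
    (Set.range ρ → (Fin k → ℤ)) →ₗ[ℤ] V :=
  ∑ q : Set.range ρ, (q.1 : V →ₗ[ℤ] V) ∘ₗ s ∘ₗ (LinearMap.proj q)

theorem cov_apply [Fintype (Set.range ρ)] {k : ℕ} (s : (Fin k → ℤ) →ₗ[ℤ] V)
    (f : Set.range ρ → (Fin k → ℤ)) :
    cov ρ s f = ∑ q : Set.range ρ, (q.1 : V →ₗ[ℤ] V) (s (f q)) := by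
  unfold cov
  rw [LinearMap.sum_apply]
  rfl

theorem exists_ses (h : Small ρ) : ∃ (L K : Type) (_ : AddCommGroup L) (_ : AddCommGroup K)
    (lam : Representation ℤ G L) (κ : Representation ℤ G K), Module.Finite ℤ L ∧ Module.Free ℤ L ∧
      Module.Finite ℤ K ∧ Module.Free ℤ K ∧ Ses κ lam ρ := by
  classical
  obtain ⟨h1, h2⟩ := h
  have : Fintype (Set.range ρ) := h2.fintype
  obtain ⟨k, s, hs⟩ := Module.Finite.exists_fin' ℤ V
  letI := actR ρ
  set lam : Representation ℤ G (Set.range ρ → (Fin k → ℤ)) :=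
    permR (Set.range ρ) (Representation.trivial ℤ G (Fin k → ℤ)) with hlam
  have heq : ∀ (g : G) (f : Set.range ρ → (Fin k → ℤ)), cov ρ s (lam g f) = ρ g (cov ρ s f) := by
    intro g f
    rw [cov_apply, cov_apply, map_sum]
    rw [← Equiv.sum_comp (MulAction.toPerm g : Equiv.Perm (Set.range ρ))]
    refine Finset.sum_congr rfl fun q _ => ?_
    have e1 : lam g f ((MulAction.toPerm g) q) = f q := by
      change f (g⁻¹ • (g • q)) = f q
      rw [inv_smul_smul]
    rw [e1]
    rfl
  have hsurj : Function.Surjective (cov ρ s) := by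
    intro v
    obtain ⟨x, hx⟩ := hs v
    refine ⟨Pi.single ⟨1, ⟨1, map_one ρ⟩⟩ x, ?_⟩
    rw [cov_apply, Finset.sum_eq_single ⟨1, ⟨1, map_one ρ⟩⟩]
    · rw [Pi.single_eq_same]
      exact hx
    · intro q _ hq
      rw [Pi.single_eq_of_ne hq, map_zero, map_zero]
    · intro h
      exact absurd (Finset.mem_univ _) h
  have hker : ∀ g : G, ∀ f ∈ LinearMap.ker (cov ρ s), lam g f ∈ LinearMap.ker (cov ρ s) := by
    intro g f hf
    rw [LinearMap.mem_ker] at hf ⊢
    rw [heq, hf, map_zero]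
  let κ : Representation ℤ G (LinearMap.ker (cov ρ s)) :=
    { toFun := fun g => (lam g).restrict (hker g)
      map_one' := by
        ext f : 2
        change lam 1 f.1 = f.1
        rw [map_one]
        rfl
      map_mul' := fun g h => by
        ext f : 2
        change lam (g * h) f.1 = lam g (lam h f.1)
        rw [map_mul]
        rfl }
  refine ⟨_, _, inferInstance, inferInstance, lam, κ, inferInstance, inferInstance, inferInstance,
    inferInstance, (LinearMap.ker (cov ρ s)).subtype, cov ρ s, fun g v => rfl, heq,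
    Subtype.val_injective, hsurj, LinearMap.exact_subtype_ker_map _⟩

end

/-- **Piece FIN.** -/
theorem t_FIN : S_FIN := by
  intro hrep hlat G _
  constructor
  · intro h V _ ρ hρ
    obtain ⟨L, K, _, _, lam, κ, a1, a2, a3, a4, hses⟩ := exists_ses ρ hρ
    exact ((hrep G).ttF _ _ _ κ lam ρ hses).2.2 ((hlat hrep G K κ a3 a4).1 h)
      ((hlat hrep G L lam a1 a2).1 h)
  · intro h V _ ρ hρ
    obtain ⟨L, K, _, _, lam, κ, a1, a2, a3, a4, hses⟩ := exists_ses ρ hρ
    exact ((hrep G).ttP _ _ _ κ lam ρ hses).2.2 ((hlat hrep G K κ a3 a4).2 h)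
      ((hlat hrep G L lam a1 a2).2 h)

end Pool.Agent.K1H99.HE
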