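import Pool.Agent.K1H12.SW.Stm2
import Pool.Agent.K1H10.HE.PERM

set_option autoImplicit false

/-!
# Project HE, piece PERMa
-/

namespace Pool.Agent.K1H99.HE

open Pool.Agent.K1H12.SW Pool.Agent.K1H10.HE

/-- interchanging the two arguments -/
theorem iso_pow {G : Type} [Group G] {V : Type} [AddCommGroup V] (X : Type) [MulAction G X]
    (σ : Representation ℤ G V) (a : ℕ) : IsoR (permR X (powR a σ)) (powR a (permR X σ)) := by
  let e : (X → Fin a → V) ≃ₗ[ℤ] (Fin a → X → V) :=
    { toFun := fun f i x => f x i
      invFun := fun f x i => f i x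
      left_inv := fun f => rfl
      right_inv := fun f => rfl
      map_add' := fun f g => rfl
      map_smul' := fun n f => rfl }
  exact ⟨e, fun g f => rfl⟩

/-- the transitive case -/
theorem orbit_caseA (hR : AllRep) (hF : AllFinA) (hI : S_IND) (G : Type) [Group G] (X : Type)
    [Finite X] [MulAction G X] (x : X) (a : ℕ) (hx : FFr (trivN (MulAction.stabilizer G x) a))
    (V : Type) [AddCommGroup V] (σ : Representation ℤ G V) (hσ : Small σ) :
    FFr (permR (MulAction.orbit G x) (powR a σ)) := by
  have hfin : Finite (G ⧸ MulAction.stabilizer G x) :=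
    Finite.of_equiv _ (MulAction.orbitEquivQuotientStabilizer G x)
  have hfi : (MulAction.stabilizer G x).FiniteIndex := Subgroup.finiteIndex_of_finite_quotient
  have h1 : FFr ((powR a σ).comp (MulAction.stabilizer G x).subtype :
      Representation ℤ (MulAction.stabilizer G x) (Fin a → V)) := by
    have h0 : FFr (powR a (σ.comp (MulAction.stabilizer G x).subtype :
        Representation ℤ (MulAction.stabilizer G x) V)) := by
      refine hF (MulAction.stabilizer G x) a hx V _ ⟨hσ.1, hσ.2.subset ?_⟩
      rintro _ ⟨k, rfl⟩
      exact ⟨k, rfl⟩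
    exact h0
  have h2 := hI hR G (MulAction.stabilizer G x) hfi (Fin a → V) (powR a σ) h1
  refine (hR G).isoF _ _ _ _ (iso_of_equiv (powR a σ)
    (MulAction.orbitEquivQuotientStabilizer G x).symm ?_) h2
  intro g y
  induction y using QuotientGroup.induction_on with
  | H a =>
    apply Subtype.ext
    rw [MulAction.Quotient.smul_coe, MulAction.orbitEquivQuotientStabilizer_symm_apply,
      MulAction.orbit.coe_smul, MulAction.orbitEquivQuotientStabilizer_symm_apply, smul_eq_mul,
      mul_smul]

theorem perm_auxA (hR : AllRep) (hF : AllFinA) (hI : S_IND) (G : Type) [Group G] (a : ℕ)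
    (V : Type) [AddCommGroup V] (σ : Representation ℤ G V) (hσ : Small σ) :
    ∀ (n : ℕ) (X : Type) [Finite X] [MulAction G X], Nat.card X = n →
      (∀ x : X, FFr (trivN (MulAction.stabilizer G x) a)) → FFr (permR X (powR a σ)) := by
  intro n
  induction n using Nat.strong_induction_on with
  | _ n ih =>
    intro X _ _ hn hX
    rcases isEmpty_or_nonempty X with he | ⟨⟨x⟩⟩
    · exact (hR G).zeroF _ _ inferInstance
    · refine ((hR G).ttF _ _ _ _ _ _ (ses_orbit X x (powR a σ))).1 ?_ ?_
      · have hlt : Nat.card (co (G := G) X x) < n := by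
          rw [← hn]
          refine Finite.card_subtype_lt (p := fun y => y ∈ co (G := G) X x) (x := x) ?_
          rw [mem_co, not_not]
          exact MulAction.mem_orbit_self x
        refine ih _ hlt (co (G := G) X x) rfl ?_
        intro y
        have h1 := hX (y : X)
        rw [← SubMulAction.stabilizer_of_subMul] at h1
        exact h1
      · exact orbit_caseA hR hF hI G X x a (hX x) V σ hσ

/-- **Piece PERMa.** -/
theorem t_PERMa : S_PERMa := by
  intro hR hF hI G _ X _ _ a hX V _ σ hσ
  exact (hR G).isoF _ _ _ _ (iso_pow X σ a) (perm_auxA hR hF hI G a V σ hσ _ X rfl hX)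

end Pool.Agent.K1H99.HE
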